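import Pool.Agent.Run7.h487.MSO.E

set_option autoImplicit false

/-!
# Deleting an edge lowers the mean subtree order: bridgeless graphs and graphs with few bridges

Q1 of the problem: if `G` is connected and not a tree, is there an edge `e` such that `G \ e` is
connected and `mu (G \ e) < mu G`? Here `mu G` is the mean number of vertices of a subtree of `G`.

Let `T` be a uniformly random subtree of `G`, let `size T` be the number of its vertices, `nb T` the
number of its edges which are bridges of `G` and `nc T` the number of its other edges.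

(1) Q1 holds for all bridgeless graphs: if `G` is connected, has at least two vertices and no bridge,
    then for some edge `e` the graph `G \ e` is connected and
    `mu (G \ e) ≤ mu G - Var (size T) / |E(G)| < mu G`.
(2) Graphs with bridges: if `Cov (size T, nc T) > 0`, then for some edge `e` the graph `G \ e` is
    connected and `mu (G \ e) ≤ mu G - Cov (size T, nc T) / |C| < mu G`, where `C` is the set of the
    edges which are not bridges.
(3) Let `G` be no tree, with `β` bridges. The hypothesis of (2), and so the conclusion of Q1, holds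
    * if `β ≤ 1`, or
    * if for every bridge `uv` at least `2 β ^ 2` subtrees of `G - uv` contain `u` (and as many
      contain `v`), for instance if both components of `G - uv` have at least `2 β ^ 2` vertices
      (4), or
    * if `Cov (nb T, nc T) ≥ 0`, or
    * if `Var (nb T) < Var (nc T)`.
(4) The number of the subtrees of `G - uv` which contain `u` is at least the number of the vertices
    of the component of `u`.

The proof: the subtrees of `G \ e` are the subtrees of `G` which do not contain `e`. So
`mu (G \ e) < mu G` if and only if the indicator function `1_e` of the event that `T` contains `e`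
satisfies `Cov (size T, 1_e) > 0`, and the sum of these covariances over the edges `e` which are not
bridges is `Cov (size T, nc T)`. For (3) let `e = ab` be a bridge. A subtree of the component of `a`
is joined to `a` by the edges of a shortest path, taken one by one in an injective way (for each
length of the path); this gives `∑ (nc T - c)_+ ≤ β ∑ (nc T - c)_+ ^ 2`, where `T` runs on the left
over all subtrees of the component and on the right over those which contain `a`. Since the subtrees
which contain `e` are the pairs of a subtree with `a` and a subtree with `b`, this yields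
`β Cov (1_e, nc) > - Var (nc)`.
-/

namespace Pool.Agent.Results.MP_d417b4_co.BridgelessGraphs

open Finset SimpleGraph

variable {V : Type} [Fintype V]

/-- the number of the subtrees of `G` with exactly `k` vertices -/
noncomputable def s (G : SimpleGraph V) (k : ℕ) : ℕ :=
  {T : G.Subgraph | T.coe.IsTree ∧ T.verts.ncard = k}.ncard

/-- the mean subtree order -/
noncomputable def mu (G : SimpleGraph V) : ℝ :=
  (∑ k ∈ Icc 1 (Fintype.card V), (k : ℝ) * s G k) / ∑ k ∈ Icc 1 (Fintype.card V), (s G k : ℝ)

/-- the mean of `f` over all subtrees of `G` -/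
noncomputable def avg (G : SimpleGraph V) (f : G.Subgraph → ℝ) : ℝ :=
  (∑ T ∈ (Set.toFinite {T : G.Subgraph | T.coe.IsTree}).toFinset, f T) /
    ({T : G.Subgraph | T.coe.IsTree}.ncard : ℝ)

/-- the covariance of `f` and `g` for a uniformly random subtree of `G` -/
noncomputable def cov (G : SimpleGraph V) (f g : G.Subgraph → ℝ) : ℝ :=
  avg G (fun T => f T * g T) - avg G f * avg G g

/-- the number of the vertices of `T` -/
noncomputable def size {G : SimpleGraph V} (T : G.Subgraph) : ℝ := (T.verts.ncard : ℝ)

/-- the number of the edges of `T` which are bridges of `G` -/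
noncomputable def nb {G : SimpleGraph V} (T : G.Subgraph) : ℝ :=
  ({e | e ∈ T.edgeSet ∧ G.IsBridge e}.ncard : ℝ)

/-- the number of the edges of `T` which are not bridges of `G` -/
noncomputable def nc {G : SimpleGraph V} (T : G.Subgraph) : ℝ :=
  ({e | e ∈ T.edgeSet ∧ ¬ G.IsBridge e}.ncard : ℝ)

/-- the number of the bridges of `G` -/
noncomputable def bridges (G : SimpleGraph V) : ℕ :=
  {e : Sym2 V | e ∈ G.edgeSet ∧ G.IsBridge e}.ncard

/-- the number of the subtrees of `G - uv` which contain `u` -/
noncomputable def rooted (G : SimpleGraph V) (u v : V) : ℕ :=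
  {T : (G.deleteEdges {s(u, v)}).Subgraph | T.coe.IsTree ∧ u ∈ T.verts}.ncard

open Run7.h487

lemma rooted_eq (G : SimpleGraph V) (u v : V) : (MSO.US G s(u, v) u).card = rooted G u v := by
  classical
  unfold rooted MSO.US
  rw [← Set.ncard_coe_finset]
  congr 1
  ext T
  simp [MSO.mem_ST]

lemma mu_same (G : SimpleGraph V) : mu G = MSO.mu G := rfl

lemma avg_same (G : SimpleGraph V) (f : G.Subgraph → ℝ) : avg G f = MSO.avg G f := by
  unfold avg MSO.avg MSO.ST
  rw [← Set.ncard_eq_toFinset_card]

lemma cov_same (G : SimpleGraph V) (f g : G.Subgraph → ℝ) : cov G f g = MSO.cov G f g := by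
  unfold cov MSO.cov
  rw [avg_same, avg_same, avg_same]

lemma cov_size_size [Nonempty V] (G : SimpleGraph V) :
    MSO.cov G MSO.size MSO.size =
      MSO.cov G MSO.nb MSO.nb + 2 * MSO.cov G MSO.nb MSO.nc + MSO.cov G MSO.nc MSO.nc := by
  unfold MSO.cov
  have h1 : MSO.avg G MSO.size = 1 + MSO.avg G MSO.nb + MSO.avg G MSO.nc := by
    rw [MSO.avg_congr (g := fun T => (1 + MSO.nb T) + MSO.nc T) (fun T hT => MSO.size_eq hT),
      MSO.avg_add, MSO.avg_add, MSO.avg_one]
  have h2 : MSO.avg G (fun T => MSO.size T * MSO.size T) =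
      1 + MSO.avg G MSO.nb + MSO.avg G MSO.nb + MSO.avg G MSO.nc + MSO.avg G MSO.nc +
        MSO.avg G (fun T => MSO.nb T * MSO.nb T) + MSO.avg G (fun T => MSO.nb T * MSO.nc T) +
        MSO.avg G (fun T => MSO.nb T * MSO.nc T) + MSO.avg G (fun T => MSO.nc T * MSO.nc T) := by
    rw [MSO.avg_congr (g := fun T => (((((((1 + MSO.nb T) + MSO.nb T) + MSO.nc T) + MSO.nc T) +
      MSO.nb T * MSO.nb T) + MSO.nb T * MSO.nc T) + MSO.nb T * MSO.nc T) + MSO.nc T * MSO.nc T)
      (fun T hT => by rw [MSO.size_eq hT]; ring), MSO.avg_add, MSO.avg_add, MSO.avg_add,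
      MSO.avg_add, MSO.avg_add, MSO.avg_add, MSO.avg_add, MSO.avg_add, MSO.avg_one]
  rw [h1, h2]
  ring

omit [Fintype V] in
lemma delete_connected {G : SimpleGraph V} (hG : G.Connected) {e : Sym2 V}
    (he : ¬ G.IsBridge e) : (G.deleteEdges {e}).Connected := by
  induction e with
  | h u v => exact hG.connected_delete_edge_of_not_isBridge he

/-- **Mean subtree order and the deletion of an edge.** (1) bridgeless graphs; (2) a criterion for
graphs with bridges; (3) sufficient conditions for (2): at most one bridge, or rich sides of all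
bridges, or a condition on covariances; (4) sides with many vertices are rich. -/
theorem result {V : Type} [Fintype V] (G : SimpleGraph V) (hG : G.Connected) :
    (2 ≤ Fintype.card V → (∀ e ∈ G.edgeSet, ¬ G.IsBridge e) →
      ∃ e ∈ G.edgeSet, (G.deleteEdges {e}).Connected ∧
        mu (G.deleteEdges {e}) ≤ mu G - cov G size size / G.edgeSet.ncard ∧
        mu (G.deleteEdges {e}) < mu G) ∧
    (0 < cov G size nc →
      ∃ e ∈ G.edgeSet, (G.deleteEdges {e}).Connected ∧
        mu (G.deleteEdges {e}) ≤
          mu G - cov G size nc / ({e | e ∈ G.edgeSet ∧ ¬ G.IsBridge e}.ncard : ℝ) ∧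
        mu (G.deleteEdges {e}) < mu G) ∧
    (¬ G.IsTree →
      (bridges G ≤ 1 ∨
        (∀ u v, G.Adj u v → G.IsBridge s(u, v) → 2 * bridges G ^ 2 ≤ rooted G u v) ∨
        0 ≤ cov G nb nc ∨ cov G nb nb < cov G nc nc) → 0 < cov G size nc) ∧
    (∀ u v, {w | (G.deleteEdges {s(u, v)}).Reachable u w}.ncard ≤ rooted G u v) := by
  have : Nonempty V := hG.nonempty
  have e1 : cov G size nc = MSO.cov G MSO.size MSO.nc := cov_same G _ _
  have e2 : cov G nb nc = MSO.cov G MSO.nb MSO.nc := cov_same G _ _
  have e3 : cov G nb nb = MSO.cov G MSO.nb MSO.nb := cov_same G _ _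
  have e4 : cov G nc nc = MSO.cov G MSO.nc MSO.nc := cov_same G _ _
  have e5 : cov G size size = MSO.cov G MSO.size MSO.size := cov_same G _ _
  have hcard : ((MSO.CE G).card : ℝ) = ({e | e ∈ G.edgeSet ∧ ¬ G.IsBridge e}.ncard : ℝ) := by
    unfold MSO.CE
    rw [← Set.ncard_eq_toFinset_card]
  have p2 : 0 < cov G size nc →
      ∃ e ∈ G.edgeSet, (G.deleteEdges {e}).Connected ∧
        mu (G.deleteEdges {e}) ≤
          mu G - cov G size nc / ({e | e ∈ G.edgeSet ∧ ¬ G.IsBridge e}.ncard : ℝ) ∧
        mu (G.deleteEdges {e}) < mu G := by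
    intro h
    rw [e1] at h ⊢
    obtain ⟨e, h1, h2, h3, h4⟩ := MSO.main G h
    rw [hcard] at h3 h4
    exact ⟨e, h1, delete_connected hG h2, h3, by rw [mu_same, mu_same]; linarith⟩
  have p3 : (∃ e ∈ G.edgeSet, ¬ G.IsBridge e) →
      (0 ≤ cov G nb nc ∨ cov G nb nb < cov G nc nc) → 0 < cov G size nc := by
    rintro ⟨e, he, hb⟩ h
    have h1 := MSO.var_nc_pos G he hb
    have h2 := MSO.cov_size G
    have h3 := MSO.var_nonneg G MSO.size
    rw [cov_size_size] at h3
    rw [e2, e3, e4] at h
    rw [e1]
    rcases h with h | h <;> linarith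
  have p4 : ¬ G.IsTree → ∃ e ∈ G.edgeSet, ¬ G.IsBridge e := by
    intro ht
    by_contra hc
    push Not at hc
    refine ht ⟨hG, isAcyclic_iff_forall_adj_isBridge.2 fun {x y} hxy => ?_⟩
    exact hc _ hxy
  refine ⟨fun hV hb => ?_, p2, fun ht h => ?_, fun u v => ?_⟩
  · have : Nontrivial V := Fintype.one_lt_card_iff_nontrivial.1 (by omega)
    obtain ⟨v⟩ := ‹Nonempty V›
    obtain ⟨u, hu⟩ := hG.preconnected.exists_adj_of_nontrivial v
    have hnb : ∀ T : G.Subgraph, MSO.nb T = 0 := by
      intro T
      unfold MSO.nb
      have h1 : {e | e ∈ T.edgeSet ∧ G.IsBridge e} = ∅ := by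
        ext e
        simp only [Set.mem_ofPred_eq, Set.mem_empty_iff_false, iff_false, not_and]
        exact fun h => hb e (T.edgeSet_subset h)
      rw [h1, Set.ncard_empty, Nat.cast_zero]
    have hnb' : (MSO.nb : G.Subgraph → ℝ) = fun _ => 0 := funext hnb
    have hz : MSO.cov G MSO.nb MSO.nc = 0 := by
      rw [hnb']
      unfold MSO.cov MSO.avg
      simp
    have hz' : MSO.cov G MSO.nb MSO.nb = 0 := by
      rw [hnb']
      unfold MSO.cov MSO.avg
      simp
    have h1 : cov G size size = cov G size nc := by
      rw [e5, e1, cov_size_size, MSO.cov_size, hz, hz']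
      ring
    have h2 : {e | e ∈ G.edgeSet ∧ ¬ G.IsBridge e} = G.edgeSet := by
      ext e
      simp only [Set.mem_ofPred_eq]
      exact ⟨fun h => h.1, fun h => ⟨h, hb e h⟩⟩
    have h3 := p2 (p3 ⟨s(v, u), hu, hb _ hu⟩ (Or.inl (by rw [e2, hz])))
    rw [h2, ← h1] at h3
    exact h3
  · rcases h with h | h | h
    · rw [e1]
      exact MSO.cov_pos hG (Or.inl h) (p4 ht)
    · rw [e1]
      refine MSO.cov_pos hG (Or.inr fun a b hab hb => ?_) (p4 ht)
      rw [rooted_eq]
      exact h a b hab hb
    · exact p3 (p4 ht) h
  · rw [← rooted_eq]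
    exact MSO.card_US G s(u, v) u

end Pool.Agent.Results.MP_d417b4_co.BridgelessGraphs
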